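import Pool.Agent.H45.EG3.S3

/-!
# EG3, module CL3: the theorem of Clements and Lindström for three places
-/

set_option autoImplicit false

namespace Pool.EG3

open MvPolynomial Pool.EGH
open Pool.EGC (lx sl cj Gs)

namespace CL3aux

/-- The truncated caps. -/
noncomputable def tr (c : Fin 3 → ℕ∞) (d : ℕ) (i : Fin 3) : ℕ :=
  (min (c i) ((d + 2 : ℕ) : ℕ∞)).toNat

theorem tr_cast (c : Fin 3 → ℕ∞) (d : ℕ) (i : Fin 3) :
    ((tr c d i : ℕ) : ℕ∞) = min (c i) ((d + 2 : ℕ) : ℕ∞) := by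
  unfold tr
  apply ENat.natCast_toNat
  exact ne_top_of_le_ne_top (ENat.natCast_ne_top _) (min_le_right _ _)

theorem cp_eq (c : Fin 3 → ℕ∞) (d : ℕ) (i : Fin 3) :
    cp (tr c d 0) (tr c d 1) (tr c d 2) 3 i = ((tr c d i : ℕ) : ℕ∞) := by
  fin_cases i
  · rfl
  · rfl
  · rfl

theorem Mo_eq (hMOM : MOMStmt) (c : Fin 3 → ℕ∞) (d e : ℕ) (he : e ≤ d + 1) :
    Mo (cp (tr c d 0) (tr c d 1) (tr c d 2) 3) e = Mo c e := by
  ext x
  rw [(hMOM 3 _ e x).1, (hMOM 3 _ e x).1]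
  constructor
  · rintro ⟨h1, h2⟩
    refine ⟨h1, fun i => ?_⟩
    have := h2 i
    rw [cp_eq, tr_cast, lt_min_iff] at this
    exact this.1
  · rintro ⟨h1, h2⟩
    refine ⟨h1, fun i => ?_⟩
    rw [cp_eq, tr_cast, lt_min_iff]
    refine ⟨h2 i, ?_⟩
    have h3 : x i ≤ ∑ j, x j := Finset.single_le_sum (f := x) (fun j _ => Nat.zero_le _)
      (Finset.mem_univ i)
    exact_mod_cast (show x i < d + 2 by omega)

end CL3aux

open CL3aux

/-- CL3. -/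
theorem t_cl3 (hMOM : MOMStmt) (hGRO : GROStmt) (hT3M : T3MStmt) (hMNM : MNMStmt)
    (hFC3 : FC3Stmt) : CL3Stmt := by
  intro c hc d A B hA hB hcard
  obtain ⟨hmono, h2, -⟩ := hc
  have e0 := Mo_eq hMOM c d d (by omega)
  have e1 := Mo_eq hMOM c d (d + 1) le_rfl
  have hle : ∀ i j : Fin 3, i ≤ j → tr c d i ≤ tr c d j := by
    intro i j hij
    have h : ((tr c d i : ℕ) : ℕ∞) ≤ ((tr c d j : ℕ) : ℕ∞) := by
      rw [tr_cast, tr_cast]
      exact min_le_min_right _ (hmono hij)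
    exact_mod_cast h
  have h2' : 2 ≤ tr c d 0 := by
    have h : ((2 : ℕ) : ℕ∞) ≤ ((tr c d 0 : ℕ) : ℕ∞) := by
      rw [tr_cast]
      refine le_min (h2 0) ?_
      exact_mod_cast (show 2 ≤ d + 2 by omega)
    exact_mod_cast h
  have hab := hle 0 1 (by decide)
  have hbc := hle 1 2 (by decide)
  generalize tr c d 0 = a₀ at *
  generalize tr c d 1 = a₁ at *
  generalize tr c d 2 = a₂ at *
  have hup : ∀ D : Finset (Fin 3 → ℕ), up c d D = up (cp a₀ a₁ a₂ 3) d D := by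
    intro D
    unfold up
    rw [e1]
  rw [hup, hup]
  rw [← e0] at hA
  have hB' : Sg (cp a₀ a₁ a₂ 3) d B := by
    unfold Sg at hB ⊢
    rwa [e0]
  obtain ⟨I, hI, i0, i1, i2, hd, hd1⟩ := hMNM (AlgebraicClosure ℚ) a₀ a₁ a₂ d A hA
  have hg := hGRO (AlgebraicClosure ℚ) a₀ a₁ a₂ _ _ _
    (hT3M (AlgebraicClosure ℚ) a₀ a₁ a₂ h2' hab hbc) d I hI i0 i1 i2
  have hf := hFC3 a₀ a₁ a₂ d (hf I (d + 1)) B hbc hB' (by omega) (by omega)
  omega

end Pool.EG3
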