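import Pool.Agent.H45.EG3.S3

/-!
# EG3, module FC3: the shadows of segments in three places
-/

set_option autoImplicit false

namespace Pool.EG3

open MvPolynomial Pool.EGH
open Pool.EGC (lx sl cj Gs)

namespace FC3aux

theorem mem (hMOM : MOMStmt) (a b c d : ℕ) (x : Fin 3 → ℕ) :
    x ∈ Mo (cp a b c 3) d ↔ (x 0 + x 1 + x 2 = d ∧ x 0 < a ∧ x 1 < b ∧ x 2 < c) := by
  rw [(hMOM 3 (cp a b c 3) d x).1, Fin.sum_univ_three]
  have h : (∀ i, (x i : ℕ∞) < cp a b c 3 i) ↔ (x 0 < a ∧ x 1 < b ∧ x 2 < c) := by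
    constructor
    · intro h
      have h0 := h 0
      have h1 := h 1
      have h2 := h 2
      simp only [cp] at h0 h1 h2
      norm_num at h0 h1 h2
      exact ⟨h0, h1, h2⟩
    · rintro ⟨h0, h1, h2⟩ i
      fin_cases i
      · simp only [cp]; norm_num; exact h0
      · simp only [cp]; norm_num; exact h1
      · simp only [cp]; norm_num; exact h2
  rw [h]

theorem mem_up (hMOM : MOMStmt) (a b c d : ℕ) (A : Finset (Fin 3 → ℕ)) (y : Fin 3 → ℕ) :
    y ∈ up (cp a b c 3) d A ↔
      y ∈ Mo (cp a b c 3) (d + 1) ∧ ∃ x ∈ A, ∃ i, y = x + Pi.single i 1 :=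
  (hMOM 3 (cp a b c 3) d y).2 A y

theorem card0 (hMOM : MOMStmt) (a b c m : ℕ) (hbc : b ≤ c) :
    ((Mo (cp (a + 1) b c 3) m).filter (fun x => x 0 = 0)).card = Nn b c m := by
  have h : ((Mo (cp (a + 1) b c 3) m).filter (fun x => x 0 = 0)).card =
      (Finset.Ico (m + 1 - c) (min b (m + 1))).card := by
    apply Finset.card_bij (fun x _ => x 1)
    · intro x hx
      rw [Finset.mem_filter, mem hMOM] at hx
      rw [Finset.mem_Ico, lt_min_iff]
      omega
    · intro x hx y hy hxy
      rw [Finset.mem_filter, mem hMOM] at hx hy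
      funext i
      fin_cases i
      · exact hx.2.trans hy.2.symm
      · exact hxy
      · have : x 1 = y 1 := hxy
        show x 2 = y 2
        omega
    · intro t ht
      rw [Finset.mem_Ico, lt_min_iff] at ht
      refine ⟨![0, t, m - t], ?_, rfl⟩
      rw [Finset.mem_filter, mem hMOM]
      show (0 + t + (m - t) = m ∧ 0 < a + 1 ∧ t < b ∧ m - t < c) ∧ 0 = 0
      omega
  rw [h, Nat.card_Ico]
  unfold Nn
  omega

/-- The shift. -/
def sh (x : Fin 3 → ℕ) : Fin 3 → ℕ := x + Pi.single 0 1

theorem sh_inj : Function.Injective sh := fun _ _ h => add_right_cancel h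

theorem sh0 (x : Fin 3 → ℕ) : sh x 0 = x 0 + 1 := by simp [sh]
theorem sh1 (x : Fin 3 → ℕ) : sh x 1 = x 1 := by simp [sh]
theorem sh2 (x : Fin 3 → ℕ) : sh x 2 = x 2 := by simp [sh]

theorem mem_sh (hMOM : MOMStmt) (a b c d : ℕ) (x : Fin 3 → ℕ) :
    sh x ∈ Mo (cp (a + 1) b c 3) (d + 1) ↔ x ∈ Mo (cp a b c 3) d := by
  rw [mem hMOM, mem hMOM, sh0, sh1, sh2]
  omega

theorem eq_sh (x : Fin 3 → ℕ) (h : x 0 ≠ 0) : ∃ y, x = sh y := by
  refine ⟨![x 0 - 1, x 1, x 2], ?_⟩
  funext i
  fin_cases i
  · show x 0 = sh _ 0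
    rw [sh0]
    simp only [Matrix.cons_val_zero]
    omega
  · show x 1 = sh _ 1
    rw [sh1]
    rfl
  · show x 2 = sh _ 2
    rw [sh2]
    rfl

theorem cardM (hMOM : MOMStmt) (a b c m : ℕ) :
    ((Mo (cp (a + 1) b c 3) (m + 1)).filter (fun x => ¬ x 0 = 0)).card =
      (Mo (cp a b c 3) m).card := by
  symm
  apply Finset.card_bij (fun x _ => sh x)
  · intro x hx
    rw [Finset.mem_filter, mem_sh hMOM, sh0]
    exact ⟨hx, by omega⟩
  · intro x _ y _ h
    exact sh_inj h
  · intro y hy
    rw [Finset.mem_filter] at hy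
    obtain ⟨x, rfl⟩ := eq_sh y hy.2
    exact ⟨x, (mem_sh hMOM a b c m x).1 hy.1, rfl⟩

theorem lx_sh (x y : Fin 3 → ℕ) : lx (sh x) (sh y) ↔ lx x y := by
  unfold lx sh
  simp

/-- The case of a segment without vectors in row zero. -/
theorem shift (hMOM : MOMStmt) (a b c d : ℕ) (B : Finset (Fin 3 → ℕ))
    (hB : Sg (cp (a + 1) b c 3) (d + 1) B) (h0 : ∀ x ∈ B, x 0 ≠ 0) :
    ∃ B', Sg (cp a b c 3) d B' ∧ B'.card = B.card ∧
      (up (cp (a + 1) b c 3) (d + 1) B).card ≤ (up (cp a b c 3) d B').card := by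
  classical
  have hex : ∃ B' : Finset (Fin 3 → ℕ), B'.image sh = B := by
    refine ⟨B.image (fun x => ![x 0 - 1, x 1, x 2]), ?_⟩
    rw [Finset.image_image]
    conv_rhs => rw [← Finset.image_id (s := B)]
    apply Finset.image_congr
    intro x hx
    obtain ⟨y, rfl⟩ := eq_sh x (h0 x hx)
    simp only [Function.comp_apply, id_eq]
    congr 1
    funext i
    fin_cases i
    · show sh y 0 - 1 = y 0
      rw [sh0]; omega
    · show sh y 1 = y 1
      rw [sh1]
    · show sh y 2 = y 2
      rw [sh2]
  obtain ⟨B', rfl⟩ := hex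
  refine ⟨B', ⟨fun x hx => ?_, fun x hx y hy hxy => ?_⟩,
    (Finset.card_image_of_injective _ sh_inj).symm, ?_⟩
  · exact (mem_sh hMOM a b c d x).1 (hB.1 (Finset.mem_image_of_mem _ hx))
  · have h1 := hB.2 _ (Finset.mem_image_of_mem _ hx) (sh y) ((mem_sh hMOM a b c d y).2 hy)
      ((lx_sh x y).2 hxy)
    obtain ⟨z, hz, hzy⟩ := Finset.mem_image.1 h1
    rwa [← sh_inj hzy]
  · rw [← Finset.card_image_of_injective (up (cp a b c 3) d B') sh_inj]
    apply Finset.card_le_card
    intro y hy
    rw [mem_up hMOM] at hy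
    obtain ⟨hyM, x, hx, i, rfl⟩ := hy
    obtain ⟨z, hz, rfl⟩ := Finset.mem_image.1 hx
    have e : sh z + Pi.single i 1 = sh (z + Pi.single i 1) := by
      unfold sh; abel
    rw [e] at hyM ⊢
    apply Finset.mem_image_of_mem
    rw [mem_up hMOM]
    exact ⟨(mem_sh hMOM a b c (d + 1) _).1 hyM, z, hz, i, rfl⟩

/-- The computation in row zero. -/
theorem row (hMOM : MOMStmt) (a b c d : ℕ) (B : Finset (Fin 3 → ℕ))
    (hB : Sg (cp (a + 1) b c 3) d B) :
    ((((Mo (cp (a + 1) b c 3) d).filter (fun x => x 0 = 0)).filter (fun x => x ∉ B)).card ≤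
      (((Mo (cp (a + 1) b c 3) (d + 1)).filter (fun x => x 0 = 0)).filter
        (fun x => x ∉ up (cp (a + 1) b c 3) d B)).card + if c ≤ d + 1 then 1 else 0) := by
  classical
  set T := ((Mo (cp (a + 1) b c 3) d).filter (fun x => x 0 = 0)).filter (fun x => x ∉ B) with hT
  have h1 : (T.filter (fun x => x 2 + 1 < c)).card ≤
      (((Mo (cp (a + 1) b c 3) (d + 1)).filter (fun x => x 0 = 0)).filter
        (fun x => x ∉ up (cp (a + 1) b c 3) d B)).card := by
    apply Finset.card_le_card_of_injOn (fun x => x + Pi.single 2 1)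
    · intro x hx
      rw [Finset.mem_coe, hT, Finset.mem_filter, Finset.mem_filter, Finset.mem_filter,
        mem hMOM] at hx
      obtain ⟨⟨⟨hxM, hx0⟩, hxB⟩, hx2⟩ := hx
      rw [Finset.mem_coe, Finset.mem_filter, Finset.mem_filter, mem hMOM]
      beta_reduce
      have e0 : (x + Pi.single 2 1 : Fin 3 → ℕ) 0 = x 0 := by simp
      have e1 : (x + Pi.single 2 1 : Fin 3 → ℕ) 1 = x 1 := by simp
      have e2 : (x + Pi.single 2 1 : Fin 3 → ℕ) 2 = x 2 + 1 := by simp
      rw [e0, e1, e2]
      refine ⟨⟨by omega, hx0⟩, fun hup => hxB ?_⟩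
      rw [mem_up hMOM] at hup
      obtain ⟨-, y, hy, i, hyi⟩ := hup
      have f0 := congrFun hyi 0
      have f1 := congrFun hyi 1
      have f2 := congrFun hyi 2
      rw [e0] at f0
      rw [e1] at f1
      rw [e2] at f2
      fin_cases i
      · simp at f0
        omega
      · simp at f0 f1 f2
        refine hB.2 y hy x ((mem hMOM (a + 1) b c d x).2 hxM) ⟨1, fun j hj => ?_, by omega⟩
        have : j = 0 := by omega
        rw [this]; exact f0.symm
      · simp at f0 f1 f2
        have : x = y := by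
          funext j
          fin_cases j
          · exact f0
          · exact f1
          · exact f2
        rwa [this]
    · intro x _ y _ h
      exact add_right_cancel h
  have h2 : (T.filter (fun x => ¬ x 2 + 1 < c)).card ≤ if c ≤ d + 1 then 1 else 0 := by
    split
    · rw [Finset.card_le_one]
      intro x hx y hy
      rw [hT, Finset.mem_filter, Finset.mem_filter, Finset.mem_filter, mem hMOM] at hx hy
      funext j
      fin_cases j
      · show x 0 = y 0
        omega
      · show x 1 = y 1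
        omega
      · show x 2 = y 2
        omega
    · rw [Nat.le_zero, Finset.card_eq_zero, Finset.eq_empty_iff_forall_notMem]
      intro x hx
      rw [hT, Finset.mem_filter, Finset.mem_filter, Finset.mem_filter, mem hMOM] at hx
      omega
  have h3 := Finset.card_filter_add_card_filter_not (s := T) (fun x => x 2 + 1 < c)
  omega

end FC3aux

open FC3aux

/-- FC3. -/
theorem t_fc3 (hMOM : MOMStmt) : FC3Stmt := by
  classical
  intro a
  induction a with
  | zero =>
    intro b c d k B hbc hB hk _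
    have h0 : ∀ m, Mo (cp 0 b c 3) m = ∅ := by
      intro m
      rw [Finset.eq_empty_iff_forall_notMem]
      intro x hx
      rw [mem hMOM] at hx
      omega
    have h1 : up (cp 0 b c 3) d B ⊆ Mo (cp 0 b c 3) (d + 1) := Finset.filter_subset _ _
    rw [h0, Finset.subset_empty] at h1
    rw [h1]
    simpa using hk
  | succ a ih =>
    intro b c d k B hbc hB hk hls
    have hup : up (cp (a + 1) b c 3) d B ⊆ Mo (cp (a + 1) b c 3) (d + 1) :=
      Finset.filter_subset _ _
    have hN1 := Finset.card_filter_add_card_filter_not (s := Mo (cp (a + 1) b c 3) (d + 1))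
      (fun x => x 0 = 0)
    have hN0 := Finset.card_filter_add_card_filter_not (s := Mo (cp (a + 1) b c 3) d)
      (fun x => x 0 = 0)
    rw [card0 hMOM a b c _ hbc] at hN1 hN0
    by_cases h0 : ∃ x ∈ B, x 0 = 0
    · -- all vectors in the other rows are in `B`
      obtain ⟨x0, hx0, hx00⟩ := h0
      have hr := row hMOM a b c d B hB
      have hall : (Mo (cp (a + 1) b c 3) d).filter (fun x => ¬ x 0 = 0) =
          B.filter (fun x => ¬ x 0 = 0) := by
        ext y
        rw [Finset.mem_filter, Finset.mem_filter]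
        constructor
        · rintro ⟨h1, h2⟩
          exact ⟨hB.2 x0 hx0 y h1 ⟨0, fun j hj => absurd hj (Fin.not_lt_zero j), by omega⟩, h2⟩
        · rintro ⟨h1, h2⟩
          exact ⟨hB.1 h1, h2⟩
      have hB1 := Finset.card_filter_add_card_filter_not (s := B) (fun x => x 0 = 0)
      have hpos : 1 ≤ (B.filter (fun x => x 0 = 0)).card :=
        Finset.card_pos.2 ⟨x0, Finset.mem_filter.2 ⟨hx0, hx00⟩⟩
      have hT : (((Mo (cp (a + 1) b c 3) d).filter (fun x => x 0 = 0)).filter
          (fun x => x ∉ B)).card + (B.filter (fun x => x 0 = 0)).card = Nn b c d := by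
        rw [← card0 hMOM a b c d hbc]
        rw [← Finset.card_filter_add_card_filter_not
          (s := (Mo (cp (a + 1) b c 3) d).filter (fun x => x 0 = 0)) (fun x => x ∉ B)]
        congr 2
        ext y
        simp only [Finset.mem_filter, not_not]
        constructor
        · rintro ⟨h1, h2⟩
          exact ⟨⟨hB.1 h1, h2⟩, h1⟩
        · rintro ⟨⟨_, h2⟩, h3⟩
          exact ⟨h3, h2⟩
      have hU : (((Mo (cp (a + 1) b c 3) (d + 1)).filter (fun x => x 0 = 0)).filter
          (fun x => x ∉ up (cp (a + 1) b c 3) d B)).card +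
          ((up (cp (a + 1) b c 3) d B).filter (fun x => x 0 = 0)).card = Nn b c (d + 1) := by
        rw [← card0 hMOM a b c (d + 1) hbc]
        rw [← Finset.card_filter_add_card_filter_not
          (s := (Mo (cp (a + 1) b c 3) (d + 1)).filter (fun x => x 0 = 0))
            (fun x => x ∉ up (cp (a + 1) b c 3) d B)]
        congr 2
        ext y
        simp only [Finset.mem_filter, not_not]
        constructor
        · rintro ⟨h1, h2⟩
          exact ⟨⟨hup h1, h2⟩, h1⟩
        · rintro ⟨⟨_, h2⟩, h3⟩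
          exact ⟨h3, h2⟩
      have hU1 := Finset.card_filter_add_card_filter_not (s := up (cp (a + 1) b c 3) d B)
        (fun x => x 0 = 0)
      have hU2 : ((up (cp (a + 1) b c 3) d B).filter (fun x => ¬ x 0 = 0)).card ≤
          ((Mo (cp (a + 1) b c 3) (d + 1)).filter (fun x => ¬ x 0 = 0)).card :=
        Finset.card_le_card (Finset.filter_subset_filter _ hup)
      rw [hall] at hN0
      have hls2 : ls b c (d + 1) k + (B.filter (fun x => x 0 = 0)).card ≤ Nn b c d := by omega
      rw [ls] at hls2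
      split_ifs at hls2 with hk0 hk1 <;> split_ifs at hr <;> omega
    · -- no vector in row zero
      have h0' : ∀ x ∈ B, x 0 ≠ 0 := fun x hx h => h0 ⟨x, hx, h⟩
      rcases Nat.eq_zero_or_pos d with rfl | hd
      · have hBe : B = ∅ := by
          rw [Finset.eq_empty_iff_forall_notMem]
          intro x hx
          have h1 := hB.1 hx
          rw [mem hMOM] at h1
          have := h0' x hx
          omega
        have hue : up (cp (a + 1) b c 3) 0 B = ∅ := by
          rw [Finset.eq_empty_iff_forall_notMem]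
          intro x hx
          rw [mem_up hMOM, hBe] at hx
          simp at hx
        rw [hue, Finset.card_empty, Nat.zero_add]
        exact hk
      · obtain ⟨d', rfl⟩ : ∃ d', d = d' + 1 := ⟨d - 1, by omega⟩
        obtain ⟨B', hB', hc, hu⟩ := shift hMOM a b c d' B hB h0'
        rw [cardM hMOM] at hN1 hN0
        have hle : (up (cp a b c 3) d' B').card ≤ (Mo (cp a b c 3) (d' + 1)).card :=
          Finset.card_le_card (Finset.filter_subset _ _)
        rcases Nat.lt_or_ge (Nn b c (d' + 1 + 1)) k with h1 | h1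
        · rw [ls, if_neg (by omega), if_neg (by omega)] at hls
          have := ih b c d' (k - Nn b c (d' + 1 + 1)) B' hbc hB' (by omega) (by omega)
          omega
        · omega

end Pool.EG3
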